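import Pool.Agent.H26.LP.Stm

/-!
# Project LP, module TRN: reduction to `L²`
-/

set_option autoImplicit false
set_option linter.unusedSectionVars false
set_option linter.unusedVariables false

namespace Pool.Agent.H16.LP.TRN

open MeasureTheory Set Metric Filter Topology
open scoped InnerProductSpace ENNReal NNReal ComplexConjugate
open Pool.Agent.Y283.NK (ct)
open Pool.Agent.Q130.TC (WT cau)
open Pool.Agent.Q130.TR
open Pool.Agent.H26.LP (S_TRN Mul1 Sqf)

variable {S : Type} [MeasurableSpace S] {μ : Measure S}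

theorem nsq {f : S → ℂ} (hf : MemLp f 2 μ) : ‖hf.toLp f‖ ^ 2 = ∫ s, ‖f s‖ ^ 2 ∂μ := by
  have h1 := L2.inner_def (𝕜 := ℂ) (hf.toLp f) (hf.toLp f)
  rw [inner_self_eq_norm_sq_to_K] at h1
  have h2 : ∫ a, ⟪(hf.toLp f) a, (hf.toLp f) a⟫_ℂ ∂μ = ((∫ s, ‖f s‖ ^ 2 ∂μ : ℝ) : ℂ) := by
    rw [show ((∫ s, ‖f s‖ ^ 2 ∂μ : ℝ) : ℂ) = ∫ s, ((‖f s‖ ^ 2 : ℝ) : ℂ) ∂μ from
      (integral_complex_ofReal).symm]
    refine integral_congr_ae ?_
    filter_upwards [hf.coeFn_toLp] with s hs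
    rw [hs, inner_self_eq_norm_sq_to_K]
    simp
  rw [h2] at h1
  have h3 : ((‖hf.toLp f‖ ^ 2 : ℝ) : ℂ) = ((∫ s, ‖f s‖ ^ 2 ∂μ : ℝ) : ℂ) := by
    rw [← h1]
    simp
  exact Complex.ofReal_injective h3

theorem sq_div_sqrt (c : ℂ) {y : ℝ} (hy : 0 ≤ y) : ‖c / (√y : ℂ)‖ ^ 2 = ‖c‖ ^ 2 / y := by
  rw [norm_div, Complex.norm_real, Real.norm_of_nonneg (Real.sqrt_nonneg _), div_pow, Real.sq_sqrt hy]

theorem trn : S_TRN := by
  intro S _ μ _ w f B Y hw hf
  have hYm := hf.measY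
  have hsm : Measurable fun s => (√(Y s) : ℂ) :=
    Complex.measurable_ofReal.comp hYm.sqrt
  -- the functions `f j / √Y`
  have hpm : ∀ j, Measurable fun s => f j s / (√(Y s) : ℂ) := fun j => (hf.meas j).div hsm
  have hpb : ∀ᵐ s ∂μ, ∀ m : ℕ, ∑ j ∈ Finset.range m, ‖f j s / (√(Y s) : ℂ)‖ ^ 2 ≤ Y s := by
    filter_upwards [hf.bound] with s hs m
    have h1 : ∑ j ∈ Finset.range m, ‖f j s / (√(Y s) : ℂ)‖ ^ 2 =
        (∑ j ∈ Finset.range m, ‖f j s‖ ^ 2) / Y s := by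
      rw [Finset.sum_div]
      exact Finset.sum_congr rfl fun j _ => sq_div_sqrt _ (hf.nonneg s)
    rw [h1]
    rcases (hf.nonneg s).eq_or_lt with h0 | h0
    · rw [← h0, div_zero]
    · rw [div_le_iff₀ h0]
      calc _ ≤ Y s ^ 2 := hs m
        _ = _ := by ring
  have hp1 : ∀ j, ∀ᵐ s ∂μ, ‖f j s / (√(Y s) : ℂ)‖ ^ 2 ≤ Y s := fun j => by
    filter_upwards [hpb] with s hs
    exact (Finset.single_le_sum (f := fun j => ‖f j s / (√(Y s) : ℂ)‖ ^ 2) (fun i _ => by positivity)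
      (Finset.self_mem_range_succ j)).trans (hs (j + 1))
  have hpi : ∀ j, Integrable (fun s => ‖f j s / (√(Y s) : ℂ)‖ ^ 2) μ := fun j => by
    refine hf.int.mono' ((hpm j).norm.pow_const 2).aestronglyMeasurable ?_
    filter_upwards [hp1 j] with s hs
    rw [Real.norm_of_nonneg (by positivity)]
    exact hs
  have hpL : ∀ j, MemLp (fun s => f j s / (√(Y s) : ℂ)) 2 μ := fun j =>
    (memLp_two_iff_integrable_sq_norm (hpm j).aestronglyMeasurable).2 (hpi j)
  -- the functions `conj w √Y`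
  have hqm : ∀ i, Measurable fun s => conj (w i s) * (√(Y s) : ℂ) := fun i =>
    (Complex.continuous_conj.measurable.comp (hw.meas i)).mul hsm
  have hqn : ∀ i s, ‖conj (w i s) * (√(Y s) : ℂ)‖ ^ 2 = ‖w i s‖ ^ 2 * Y s := fun i s => by
    rw [norm_mul, RCLike.norm_conj, Complex.norm_real, Real.norm_of_nonneg (Real.sqrt_nonneg _),
      mul_pow, Real.sq_sqrt (hf.nonneg s)]
  have hqb : ∀ᵐ s ∂μ, ∀ m : ℕ, ∑ i ∈ Finset.range m, ‖conj (w i s) * (√(Y s) : ℂ)‖ ^ 2 ≤
      B ^ 2 * Y s := by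
    filter_upwards [hw.bound] with s hs m
    simp only [hqn]
    rw [← Finset.sum_mul]
    exact mul_le_mul_of_nonneg_right (hs m) (hf.nonneg s)
  have hq1 : ∀ j, ∀ᵐ s ∂μ, ‖conj (w j s) * (√(Y s) : ℂ)‖ ^ 2 ≤ B ^ 2 * Y s := fun j => by
    filter_upwards [hqb] with s hs
    exact (Finset.single_le_sum (f := fun j => ‖conj (w j s) * (√(Y s) : ℂ)‖ ^ 2)
      (fun i _ => by positivity) (Finset.self_mem_range_succ j)).trans (hs (j + 1))
  have hqi : ∀ j, Integrable (fun s => ‖conj (w j s) * (√(Y s) : ℂ)‖ ^ 2) μ := fun j => by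
    refine (hf.int.const_mul (B ^ 2)).mono' ((hqm j).norm.pow_const 2).aestronglyMeasurable ?_
    filter_upwards [hq1 j] with s hs
    rw [Real.norm_of_nonneg (by positivity)]
    exact hs
  have hqL : ∀ j, MemLp (fun s => conj (w j s) * (√(Y s) : ℂ)) 2 μ := fun j =>
    (memLp_two_iff_integrable_sq_norm (hqm j).aestronglyMeasurable).2 (hqi j)
  have hps : ∀ m : ℕ, ∑ j ∈ Finset.range m, ‖(hpL j).toLp _‖ ^ 2 ≤ ∫ s, Y s ∂μ := by
    intro m
    simp only [nsq]
    rw [← integral_finsetSum _ fun j _ => hpi j]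
    refine integral_mono_ae (integrable_finsetSum _ fun j _ => hpi j) hf.int ?_
    filter_upwards [hpb] with s hs
    exact hs m
  have hqs : ∀ m : ℕ, ∑ j ∈ Finset.range m, ‖(hqL j).toLp _‖ ^ 2 ≤ B ^ 2 * ∫ s, Y s ∂μ := by
    intro m
    simp only [nsq]
    rw [← integral_finsetSum _ fun j _ => hqi j, ← integral_const_mul]
    refine integral_mono_ae (integrable_finsetSum _ fun j _ => hqi j) (hf.int.const_mul _) ?_
    filter_upwards [hqb] with s hs
    exact hs m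
  refine ⟨fun j => (hpL j).toLp _, fun j => (hqL j).toLp _,
    summable_of_sum_range_le (fun _ => by positivity) hps,
    summable_of_sum_range_le (fun _ => by positivity) hqs,
    Real.tsum_le_of_sum_range_le (fun _ => by positivity) hps,
    Real.tsum_le_of_sum_range_le (fun _ => by positivity) hqs, ?_⟩
  intro φ i j z
  unfold ct cau
  refine integral_congr_ae ?_
  filter_upwards [(hpL j).coeFn_toLp, (hqL i).coeFn_toLp, hf.bound] with s h1 h2 h3
  rw [h1, h2]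
  congr 1
  rw [map_mul, Complex.conj_conj, Complex.conj_ofReal]
  rcases (hf.nonneg s).eq_or_lt with h0 | h0
  · have h4 : f j s = 0 := by
      have h5 := (Finset.single_le_sum (f := fun j => ‖f j s‖ ^ 2)
        (fun i _ => by positivity) (Finset.self_mem_range_succ j)).trans (h3 (j + 1))
      rw [← h0] at h5
      have h6 : ‖f j s‖ ^ 2 = 0 := le_antisymm (by simpa using h5) (by positivity)
      simpa using h6
    simp [h4]
  · have h4 : (√(Y s) : ℂ) ≠ 0 := by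
      rw [Ne, Complex.ofReal_eq_zero]
      exact (Real.sqrt_pos.2 h0).ne'
    field_simp

end Pool.Agent.H16.LP.TRN
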