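import Pool.Agent.H26.LP.Stm
import Pool.Graph.R_pool_sql_team_seeded_3997aac3.Q87.TR.HSB

/-!
# Project LP, module VEC: one function
-/

set_option autoImplicit false
set_option linter.unusedSectionVars false
set_option linter.unusedVariables false

namespace Pool.Agent.H16.LP.VEC

open MeasureTheory Set Metric Filter Topology
open scoped InnerProductSpace ENNReal NNReal ComplexConjugate
open Pool.Agent.Y283.NK (ct ea)
open Pool.Agent.Y604.NK (meas_ct meas_coe meas_ea meas_ea2 ea_ball)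
open Pool.Agent.Q130.TC (WT cau)
open Pool.Agent.Q130.TR
open Pool.Agent.Q87.TR.HSB
open Pool.Agent.H26.LP (S_TRN S_VEC Mul1 Sqf)

/-- the sequence `k, 0, 0, …` -/
def k0 {S : Type} (k : S → ℂ) (j : ℕ) : S → ℂ := if j = 0 then k else 0

theorem sqf_k0 {S : Type} [MeasurableSpace S] {μ : Measure S} {k : S → ℂ} (hk : Measurable k)
    (hki : Integrable k μ) : Sqf μ (k0 k) fun s => ‖k s‖ where
  meas := fun j => by
    unfold k0
    split_ifs
    · exact hk
    · exact measurable_const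
  measY := hk.norm
  nonneg := fun s => norm_nonneg _
  int := hki.norm
  bound := Eventually.of_forall fun s m => by
    rcases m with _ | m
    · simp
    · rw [Finset.sum_range_succ', Finset.sum_eq_zero fun j _ => by simp [k0]]
      simp [k0]

/-- the reduction to `L²` -/
theorem red (hTRN : S_TRN) {S : Type} [MeasurableSpace S] {μ : Measure S} [SigmaFinite μ] (w : ℕ → S → ℂ)
    {B : ℝ} {k : S → ℂ} (hw : Mul1 μ w B) (hk : Measurable k) (hki : Integrable k μ) :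
    ∃ p q : ℕ → Lp ℂ 2 μ, Summable (fun j => ‖p j‖ ^ 2) ∧ Summable (fun i => ‖q i‖ ^ 2) ∧
      ∑' j, ‖p j‖ ^ 2 ≤ ∫ s, ‖k s‖ ∂μ ∧ ∑' i, ‖q i‖ ^ 2 ≤ B ^ 2 * ∫ s, ‖k s‖ ∂μ ∧
      ∀ (φ : S → ℂ) (z : ℂ), Fm φ p q z =
        fun i j => if j = 0 then cau μ φ (fun s => w i s * k s) z else 0 := by
  obtain ⟨p, q, h1, h2, h3, h4, h5⟩ := hTRN S μ w (k0 k) B _ hw (sqf_k0 hk hki)
  refine ⟨p, q, h1, h2, h3, h4, fun φ z => ?_⟩
  funext i j
  unfold Fm
  rw [h5]
  by_cases hj : j = 0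
  · simp [hj, k0]
  · simp [hj, k0, cau]

theorem vec (hTRN : S_TRN) (hHSB : S_HSB) : S_VEC := by
  refine ⟨?_, ?_, ?_⟩
  · intro S _ μ _ φ w B k hφ hw hk hki
    obtain ⟨p, q, h1, h2, -, -, h5⟩ := red hTRN w hw hk hki
    obtain ⟨-, c2, c3, -⟩ := hHSB.1 S μ φ hφ p q h1 h2
    simp only [h5, hs_col] at c2 c3
    refine ⟨?_, c3⟩
    filter_upwards [c2] with z hz
    exact HS_col hz
  · obtain ⟨C₀, hC₀, hmain⟩ := hHSB.2.2
    refine ⟨C₀, by linarith, ?_⟩
    intro h C δ ih h0 hC hδ hWT S _ μ _ φ w B k hφ hw hk hki t ht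
    obtain ⟨p, q, h1, h2, h3, h4, h5⟩ := red hTRN w hw hk hki
    have hI : 0 ≤ ∫ s, ‖k s‖ ∂μ := integral_nonneg fun _ => norm_nonneg _
    have h6 := (hmain h C δ ih h0 hC hδ hWT S μ φ hφ p q 0 (√(∫ s, ‖k s‖ ∂μ))
      (B * √(∫ s, ‖k s‖ ∂μ)) (Real.sqrt_nonneg _) (mul_nonneg hw.nonneg (Real.sqrt_nonneg _)) h1 h2
      (by rw [Real.sq_sqrt hI]; exact h3) (by rw [mul_pow, Real.sq_sqrt hI]; exact h4) t ht).1
    simp only [h5, hs_col] at h6
    have h7 : √(∫ s, ‖k s‖ ∂μ) * (B * √(∫ s, ‖k s‖ ∂μ)) = B * ∫ s, ‖k s‖ ∂μ := by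
      calc _ = B * (√(∫ s, ‖k s‖ ∂μ) * √(∫ s, ‖k s‖ ∂μ)) := by ring
        _ = _ := by rw [Real.mul_self_sqrt hI]
    rw [h7] at h6
    exact h6
  · intro a r
    obtain ⟨C, hC⟩ := Pool.Agent.Y891.NK.main_area (‖a‖ + r)
    refine ⟨2 * C, by positivity, ?_⟩
    intro S _ μ _ φ w B k hφ hw hk hki
    have hI : 0 ≤ ∫ s, ‖k s‖ ∂μ := integral_nonneg fun _ => norm_nonneg _
    rcases hw.nonneg.eq_or_lt with hB | hB
    · have h0 : ∀ i z, cau μ φ (fun s => w i s * k s) z = 0 := by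
        intro i z
        unfold cau
        rw [integral_eq_zero_of_ae]
        filter_upwards [hw.bound] with s hs
        have h5 := (Finset.single_le_sum (f := fun j => ‖w j s‖ ^ 2)
          (fun i _ => by positivity) (Finset.self_mem_range_succ i)).trans (hs (i + 1))
        rw [← hB] at h5
        have h6 : ‖w i s‖ ^ 2 = 0 := le_antisymm (by simpa using h5) (by positivity)
        have h7 : w i s = 0 := by simpa using h6
        simp [h7]
      simp [h0, n2]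
    obtain ⟨p, q, h1, h2, h3, h4, h5⟩ := red hTRN w hw hk hki
    have hsub : ball a r ⊆ ball (0 : ℂ) (‖a‖ + r) := by
      intro z hz
      rw [mem_ball_zero_iff]
      rw [mem_ball, dist_eq_norm] at hz
      calc ‖z‖ = ‖a + (z - a)‖ := by congr 1; ring
        _ ≤ ‖a‖ + ‖z - a‖ := norm_add_le _ _
        _ < ‖a‖ + r := by linarith
    have hBt : ENNReal.ofReal B ≠ ⊤ := ENNReal.ofReal_ne_top
    have hBz : ENNReal.ofReal B ≠ 0 := by
      rw [Ne, ENNReal.ofReal_eq_zero, not_le]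
      exact hB
    have hpt : ∀ z, ENNReal.ofReal (n2 fun i => cau μ φ (fun s => w i s * k s) z) ≤
        (ENNReal.ofReal B)⁻¹ * (∑' i, ea φ (q i) z) + ENNReal.ofReal B * ∑' j, ea φ (p j) z := by
      intro z
      rw [← hs_col, ← h5]
      refine hs_le ((H2_Fm hφ p q z).trans ?_)
      refine le_of_eq ?_
      calc (∑' i, ea φ (q i) z) * ∑' j, ea φ (p j) z
          = ((ENNReal.ofReal B)⁻¹ * ENNReal.ofReal B) *
              ((∑' i, ea φ (q i) z) * ∑' j, ea φ (p j) z) := by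
            rw [ENNReal.inv_mul_cancel hBz hBt, one_mul]
        _ = _ := by ring
    have hball : ∀ u : ℕ → Lp ℂ 2 μ, Summable (fun j => ‖u j‖ ^ 2) →
        ∫⁻ z in ball (0:ℂ) (‖a‖ + r), ∑' j, ea φ (u j) z ≤ C * ENNReal.ofReal (∑' j, ‖u j‖ ^ 2) := by
      intro u hu
      rw [lintegral_tsum fun j => (meas_ea hφ (u j)).aemeasurable]
      calc ∑' j, ∫⁻ z in ball (0:ℂ) (‖a‖ + r), ea φ (u j) z
          ≤ ∑' j, C * ENNReal.ofReal (‖u j‖ ^ 2) :=
            ENNReal.tsum_le_tsum fun j => ea_ball hφ (u j) _ C hC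
        _ = C * ENNReal.ofReal (∑' j, ‖u j‖ ^ 2) := by
          rw [ENNReal.tsum_mul_left, ENNReal.ofReal_tsum_of_nonneg (fun _ => by positivity) hu]
    have hmq : Measurable fun z => ∑' i, ea φ (q i) z := Measurable.tsum fun i => meas_ea hφ (q i)
    have hmp : Measurable fun z => ∑' i, ea φ (p i) z := Measurable.tsum fun i => meas_ea hφ (p i)
    calc ∫⁻ z in ball a r, ENNReal.ofReal (n2 fun i => cau μ φ (fun s => w i s * k s) z)
        ≤ ∫⁻ z in ball (0:ℂ) (‖a‖ + r),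
            ENNReal.ofReal (n2 fun i => cau μ φ (fun s => w i s * k s) z) :=
          lintegral_mono_set hsub
      _ ≤ ∫⁻ z in ball (0:ℂ) (‖a‖ + r), ((ENNReal.ofReal B)⁻¹ * (∑' i, ea φ (q i) z) +
            ENNReal.ofReal B * ∑' j, ea φ (p j) z) := lintegral_mono fun z => hpt z
      _ = (ENNReal.ofReal B)⁻¹ * (∫⁻ z in ball (0:ℂ) (‖a‖ + r), ∑' i, ea φ (q i) z) +
            ENNReal.ofReal B * (∫⁻ z in ball (0:ℂ) (‖a‖ + r), ∑' j, ea φ (p j) z) := by
          rw [lintegral_add_left (hmq.const_mul _), lintegral_const_mul _ hmq,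
            lintegral_const_mul _ hmp]
      _ ≤ (ENNReal.ofReal B)⁻¹ * (C * ENNReal.ofReal (B ^ 2 * ∫ s, ‖k s‖ ∂μ)) +
            ENNReal.ofReal B * (C * ENNReal.ofReal (∫ s, ‖k s‖ ∂μ)) := by
          gcongr
          · exact (hball q h2).trans (by gcongr)
          · exact (hball p h1).trans (by gcongr)
      _ = ENNReal.ofReal (2 * (C : ℝ) * (B * ∫ s, ‖k s‖ ∂μ)) := by
          have e1 : (ENNReal.ofReal B)⁻¹ * (C * ENNReal.ofReal (B ^ 2 * ∫ s, ‖k s‖ ∂μ)) =
              ENNReal.ofReal B * (C * ENNReal.ofReal (∫ s, ‖k s‖ ∂μ)) := by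
            rw [sq, ENNReal.ofReal_mul (by positivity), ENNReal.ofReal_mul hB.le]
            calc (ENNReal.ofReal B)⁻¹ * (C * (ENNReal.ofReal B * ENNReal.ofReal B *
                  ENNReal.ofReal (∫ s, ‖k s‖ ∂μ)))
                = ((ENNReal.ofReal B)⁻¹ * ENNReal.ofReal B) * (ENNReal.ofReal B *
                    (C * ENNReal.ofReal (∫ s, ‖k s‖ ∂μ))) := by ring
              _ = _ := by rw [ENNReal.inv_mul_cancel hBz hBt, one_mul]
          rw [e1, ENNReal.ofReal_mul (by positivity), ENNReal.ofReal_mul hB.le,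
            ENNReal.ofReal_mul (by norm_num), ENNReal.ofReal_coe_nnreal]
          rw [show ENNReal.ofReal 2 = 2 by norm_num]
          ring

end Pool.Agent.H16.LP.VEC
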